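import Pool.Agent.TWV.St

/-!
# TWV, module VNF: the values of a vector of symbols lie in a number field
(adapted from `TWR/NFV.lean`)
-/

set_option autoImplicit false

namespace Pool.Agent.TWV

open Finset OnePoint Pool.Agent.TWR Pool.Agent.TWR.NFVAux Pool.Agent.MuSym

/-- equivariance of `m γ = P (γ ∞) (γ 0)` -/
theorem equiV {G : Type} [CommGroup G] (N : ℕ) (nu : ℤ → ℂ) (s : ℤ → G)
    (P : G → OnePoint ℚ → OnePoint ℚ → ℂ) (hP : IsVSym N nu s P) (e : G)
    (a b c d a' b' c' d' : ℤ) (h : a * d - b * c = 1) (h' : a' * d' - b' * c' = 1)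
    (hc : (N : ℤ) ∣ c' - c) (hd : (N : ℤ) ∣ d' - d) :
    P e (pt a' c') (pt b' d') = nu (a * d' - b * c') *
      P (e * s (a * d' - b * c')) (pt a c) (pt b d) := by
  have h1 := hP.equiv e (a' * d - b' * c) (a * b' - a' * b) (c' * d - d' * c) (a * d' - b * c')
    (by linear_combination (a * d - b * c) * h' + h) (by
      have h2 : c' * d - d' * c = (c' - c) * d - (d' - d) * c := by ring
      rw [h2]
      exact (hc.mul_right _).sub (hd.mul_right _)) (pt a c) (pt b d)
  have e1 : mob (a' * d - b' * c) (a * b' - a' * b) (c' * d - d' * c) (a * d' - b * c') (pt a c) =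
      pt a' c' := by
    rw [mob_pt _ _ _ _ _ _ (by
      by_contra hh
      push Not at hh
      rw [hh.1, hh.2] at h
      simp at h)]
    congr 1
    · linear_combination a' * h
    · linear_combination c' * h
  have e2 : mob (a' * d - b' * c) (a * b' - a' * b) (c' * d - d' * c) (a * d' - b * c') (pt b d) =
      pt b' d' := by
    rw [mob_pt _ _ _ _ _ _ (by
      by_contra hh
      push Not at hh
      rw [hh.1, hh.2] at h
      simp at h)]
    congr 1
    · linear_combination b' * h
    · linear_combination d' * h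
  rw [e1, e2] at h1
  exact h1

theorem t_VNF : S_VNF := by
  intro G _ _ N hN s nu hnu hnua hs P hP hPa
  have hNpos : (0 : ℤ) < N := by exact_mod_cast Nat.pos_of_ne_zero hN
  have hii : ∀ e, P e ∞ ∞ = 0 := fun e => pp (P e) (hP.add e)
  -- all values are algebraic
  have halg0 : ∀ (e : G) (x : OnePoint ℚ), IsAlgebraic ℚ (P e ∞ x) := by
    intro e x
    induction x using OnePoint.rec with
    | infty => rw [hii]; exact isAlgebraic_zero
    | coe x => exact hPa e x
  have halg : ∀ (e : G) (x y : OnePoint ℚ), IsAlgebraic ℚ (P e x y) := by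
    intro e x y
    have h1 : P e x y = P e ∞ y - P e ∞ x := by
      rw [← hP.add e ∞ x y]
      ring
    rw [h1]
    exact (halg0 e y).sub (halg0 e x)
  -- the chosen values
  have hf : ∀ cd : ℤ × ℤ, ∃ v : G → ℂ, (∀ e, IsAlgebraic ℚ (v e)) ∧
      ∀ a b c d : ℤ, a * d - b * c = 1 →
      (N : ℤ) ∣ c - cd.1 → (N : ℤ) ∣ d - cd.2 → ∀ e : G, ∃ (k : ℤ) (e' : G),
        P e (pt a c) (pt b d) = nu k * v e' := by
    intro cd
    by_cases h : ∃ a b c d : ℤ, a * d - b * c = 1 ∧ (N : ℤ) ∣ c - cd.1 ∧ (N : ℤ) ∣ d - cd.2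
    · obtain ⟨a, b, c, d, h1, h2, h3⟩ := h
      refine ⟨fun e => P e (pt a c) (pt b d), fun e => halg _ _ _, fun a' b' c' d' h1' h2' h3' e => ?_⟩
      refine ⟨a * d' - b * c', e * s (a * d' - b * c'),
        equiV N nu s P hP e a b c d a' b' c' d' h1 h1' ?_ ?_⟩
      · have := h2'.sub h2
        have e : c' - c = c' - cd.1 - (c - cd.1) := by ring
        rw [e]
        exact this
      · have := h3'.sub h3
        have e : d' - d = d' - cd.2 - (d - cd.2) := by ring
        rw [e]
        exact this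
    · exact ⟨0, fun e => isAlgebraic_zero, fun a b c d h1 h2 h3 => absurd ⟨a, b, c, d, h1, h2, h3⟩ h⟩
  choose f hfa hf using hf
  -- the field
  set S : Set ℂ := nu '' (Set.Ico 0 (N : ℤ)) ∪
    (fun x : (ℤ × ℤ) × G => f x.1 x.2) '' ((Set.Ico 0 (N : ℤ) ×ˢ Set.Ico 0 (N : ℤ)) ×ˢ Set.univ)
    with hS
  have hSfin : S.Finite :=
    ((Set.finite_Ico 0 (N : ℤ)).image _).union
      ((((Set.finite_Ico 0 (N : ℤ)).prod (Set.finite_Ico 0 (N : ℤ))).prod Set.finite_univ).image _)
  have hSalg : ∀ x ∈ S, IsIntegral ℚ x := by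
    rintro x (⟨j, -, rfl⟩ | ⟨j, -, rfl⟩)
    · exact (hnua j).isIntegral
    · exact (hfa j.1 j.2).isIntegral
  have hfd : FiniteDimensional ℚ (IntermediateField.adjoin ℚ S) := by
    have : Finite S := hSfin
    exact IntermediateField.finiteDimensional_adjoin hSalg
  set K : IntermediateField ℚ ℂ := IntermediateField.adjoin ℚ S with hK
  have hSK : ∀ x ∈ S, x ∈ K := fun x hx => IntermediateField.subset_adjoin ℚ S hx
  have hmod : ∀ d : ℤ, d % N ∈ Set.Ico 0 (N : ℤ) := fun d =>
    ⟨Int.emod_nonneg _ hNpos.ne', Int.emod_lt_of_pos _ hNpos⟩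
  have hdvd : ∀ d : ℤ, (N : ℤ) ∣ d - d % N := fun d => Int.dvd_self_sub_emod
  have hnuK : ∀ d : ℤ, nu d ∈ K := by
    intro d
    rw [hnu d (d % N) (hdvd d)]
    exact hSK _ (Or.inl ⟨_, hmod d, rfl⟩)
  have hmK : ∀ (e : G) (a b c d : ℤ), a * d - b * c = 1 → P e (pt a c) (pt b d) ∈ K := by
    intro e a b c d h
    obtain ⟨k, e', he⟩ := hf (c % N, d % N) a b c d h (hdvd c) (hdvd d) e
    rw [he]
    exact mul_mem (hnuK k) (hSK _ (Or.inr ⟨((c % N, d % N), e'), ⟨⟨hmod c, hmod d⟩, trivial⟩, rfl⟩))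
  -- induction on the denominator
  have hind : ∀ (e : G) (n : ℕ), ∀ r s : ℤ, 0 ≤ s → s.toNat = n → IsCoprime r s →
      P e ∞ (pt r s) ∈ K := by
    intro e n
    induction n using Nat.strong_induction_on with
    | _ n ih =>
      intro r s hs hsn hrs
      rcases hs.eq_or_lt with h0 | h0
      · rw [← h0, pt_zero, hii]
        exact zero_mem _
      · obtain ⟨u, v, huv⟩ := hrs
        set s' : ℤ := (-u) % s with hs'
        set r' : ℤ := v - r * ((-u) / s) with hr'
        have hdm : s' = -u - s * ((-u) / s) := by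
          have := Int.emod_add_mul_ediv (-u) s
          rw [hs']
          linarith
        have hdet : r' * s - r * s' = 1 := by
          rw [hdm, hr']
          linear_combination huv
        have h1 : 0 ≤ s' := Int.emod_nonneg _ h0.ne'
        have h2 : s' < s := Int.emod_lt_of_pos _ h0
        have h3 : P e ∞ (pt r' s') ∈ K := by
          refine ih s'.toNat ?_ r' s' h1 rfl ⟨s, -r, by linear_combination hdet⟩
          omega
        rw [← hP.add e ∞ (pt r' s') (pt r s)]
        exact add_mem h3 (hmK e r' r s' s hdet)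
  refine ⟨K, hfd, fun e x => ?_⟩
  have hx : (x : OnePoint ℚ) = pt x.num x.den := by
    rw [pt_ne _ _ (by exact_mod_cast x.den_nz)]
    congr 1
    exact_mod_cast (Rat.num_div_den x).symm
  rw [hx]
  refine hind _ _ _ _ (by positivity) rfl ?_
  rw [Int.isCoprime_iff_gcd_eq_one]
  exact x.reduced

end Pool.Agent.TWV
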