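import Pool.Agent.TWV.VST
import Pool.Agent.TWV.VNF

/-!
# TWV: the rigidity theorem for vectors of symbols (adapted from `TWR/TW4.lean`)

The ring is the group ring `V[G]`, the module the vectors `G → ℂ / {v < 1}`: the statements `S_FUL4`
and `S_MOD` hold for all commutative rings and all modules.
-/

set_option autoImplicit false

namespace Pool.Agent.TWV

open Finset OnePoint Pool.Agent.TWR Pool.Agent.TWR.Q4 Pool.Agent.TWR.TWRAux

section Module

variable (V : ValuationSubring ℂ) (G : Type) [CommGroup G]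

/-- vectors of classes modulo the maximal ideal -/
def VM : Type := G → (ℂ ⧸ small V)

noncomputable instance : AddCommGroup (VM V G) := inferInstanceAs (AddCommGroup (G → (ℂ ⧸ small V)))

noncomputable instance : Module V (VM V G) := inferInstanceAs (Module V (G → (ℂ ⧸ small V)))

/-- the permutation of the components -/
noncomputable def actHom : G →* Module.End V (VM V G) where
  toFun g := { toFun := fun f e => f (e * g), map_add' := fun _ _ => rfl, map_smul' := fun _ _ => rfl }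
  map_one' := by
    apply LinearMap.ext
    intro f
    funext e
    show f (e * 1) = f e
    rw [mul_one]
  map_mul' g g' := by
    apply LinearMap.ext
    intro f
    funext e
    show f (e * (g * g')) = f (e * g * g')
    rw [mul_assoc]

noncomputable instance instMod : Module (MonoidAlgebra V G) (VM V G) :=
  Module.compHom (VM V G) (MonoidAlgebra.lift V (Module.End V (VM V G)) G (actHom V G)).toRingHom

theorem single_smul (g : G) (r : V) (f : VM V G) (e : G) :
    ((MonoidAlgebra.single g r : MonoidAlgebra V G) • f) e = r • f (e * g) := by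
  have h1 : (MonoidAlgebra.single g r : MonoidAlgebra V G) • f =
      (MonoidAlgebra.lift V (Module.End V (VM V G)) G (actHom V G) (MonoidAlgebra.single g r)) f := rfl
  rw [h1, MonoidAlgebra.lift_single]
  rfl

theorem alg_smul (r : V) (f : VM V G) (e : G) :
    ((algebraMap V (MonoidAlgebra V G) r) • f) e = r • f e := by
  have h1 : (algebraMap V (MonoidAlgebra V G) r) • f =
      (MonoidAlgebra.lift V (Module.End V (VM V G)) G (actHom V G)
        (algebraMap V (MonoidAlgebra V G) r)) f := rfl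
  rw [h1, AlgHom.commutes]
  rfl

theorem sum_apply' {J : Type} (t : Finset J) (F : J → VM V G) (e : G) :
    (∑ j ∈ t, F j) e = ∑ j ∈ t, F j e := by
  classical
  induction t using Finset.induction_on with
  | empty => rfl
  | insert a t ha ih =>
    rw [Finset.sum_insert ha, Finset.sum_insert ha, ← ih]
    rfl

end Module

theorem m_TWV (hFUL : S_FUL4) (hMOD : S_MOD) (hFRB : S_FRB) (hVST : S_VST) (hZCH : S_ZCH)
    (hVNF : S_VNF) : S_TWV := by
  intro l g h hG V p hp hp5 hvp I _ G _ _ N hN s hs1 hs2 nu hnu1 hnu2 hnu3 hnu4 P hsym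
    hPa hPe hPd hND
  choose K' hK1 hK2 using fun i => hVNF G N hN s (nu i) (hnu3 i) (hnu4 i) hs2 (P i) (hsym i) (hPa i)
  obtain ⟨K, hKdef⟩ : ∃ K : IntermediateField ℚ ℂ, K = ⨆ i, K' i := ⟨_, rfl⟩
  have hK : FiniteDimensional ℚ K := by
    rw [hKdef]
    have := hK1
    exact IntermediateField.finiteDimensional_iSup_of_finite
  have hPK : ∀ i (e : G) (x : ℚ), P i e ∞ (x : OnePoint ℚ) ∈ K := by
    intro i e x
    rw [hKdef]
    exact (le_iSup K' i) (hK2 i e x)
  classical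
  by_contra hcon
  push Not at hcon
  have hl : l.Prime := by rcases hG with ⟨rfl, _, _⟩ | ⟨rfl, _, _⟩ <;> norm_num
  have hl24 : l ∣ 24 := by rcases hG with ⟨rfl, _, _⟩ | ⟨rfl, _, _⟩ <;> norm_num
  have hlp : l < p := by rcases hG with ⟨rfl, _, _⟩ | ⟨rfl, _, _⟩ <;> omega
  have hcop : ∀ n : ℕ, 0 < n → n < p → V.valuation (n : ℂ) = 1 := by
    intro n h0 h1
    refine val_cop V p hvp n ?_
    rw [Nat.isCoprime_iff_coprime]
    exact Nat.Coprime.symm ((Nat.Prime.coprime_iff_not_dvd hp).2 (fun hd => by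
      have := Nat.le_of_dvd h0 hd
      omega))
  have hvl : V.valuation (l : ℂ) = 1 := hcop l hl.pos hlp
  have hv2 : V.valuation (2 : ℂ) = 1 := by
    have := hcop 2 (by norm_num) (by omega)
    simpa using this
  obtain ⟨q, hq1, hq24, hfr⟩ := hFRB V p hp hp5 hvp K hK
  have hq0 : q - 1 ≠ 0 := by omega
  have hlu0 : IsUnit (l : V) := by
    have h1 : V.valuation ((l : V) : ℂ) = 1 := by
      have h2 : ((l : V) : ℂ) = (l : ℂ) := by push_cast; rfl
      rw [h2, hvl]
    exact (V.valuation_eq_one_iff _).2 h1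
  have hlu : IsUnit (l : MonoidAlgebra V G) := by
    have h1 := hlu0.map (algebraMap V (MonoidAlgebra V G))
    rw [map_natCast] at h1
    exact h1
  -- the exponent
  obtain ⟨m, hm1, hm2⟩ : ∃ m, l ^ m ∣ q - 1 ∧ ¬ l ^ (m + 1) ∣ q - 1 := by
    have : Fact l.Prime := ⟨hl⟩
    exact ⟨padicValNat l (q - 1), pow_padicValNat_dvd, pow_succ_padicValNat_not_dvd hq0⟩
  have hmpos : 1 ≤ m := by
    by_contra hc
    have : m = 0 := by omega
    subst this
    exact hm2 (by simpa using hl24.trans hq24)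
  have hm22 : l = 2 → 2 ≤ m := by
    intro h2
    subst h2
    by_contra hc
    have : m = 1 := by omega
    subst this
    exact hm2 (Dvd.dvd.trans (by norm_num) hq24)
  obtain ⟨z0, hz0, hzexp⟩ := hZCH V l m hl hvl
  obtain ⟨z, hzdef⟩ : ∃ z : ℤ → MonoidAlgebra V G, z = fun j => algebraMap V (MonoidAlgebra V G) (z0 j) :=
    ⟨_, rfl⟩
  have hz : Chr (l ^ m) z := by
    rw [hzdef]
    refine ⟨fun a b => ?_, ?_, fun j hj => ?_⟩
    · show algebraMap V (MonoidAlgebra V G) (z0 (a + b)) = _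
      rw [hz0.add, map_mul]
    · show algebraMap V (MonoidAlgebra V G) (z0 _) = 1
      rw [hz0.per, map_one]
    · have h1 := (hz0.un j hj).map (algebraMap V (MonoidAlgebra V G))
      rw [map_sub, map_one] at h1
      exact h1
  -- symbols
  have hsymE : ∀ (i : I) (e : G) (a b c d : ℤ), a * d - b * c = 1 → (N : ℤ) ∣ c → c ≠ 0 → ∀ x : ℚ,
      (c : ℚ) * x + d ≠ 0 → P i e ∞ (((a * x + b) / (c * x + d) : ℚ) : OnePoint ℚ) =
        P i e ∞ (((a : ℚ) / c : ℚ) : OnePoint ℚ) + nu i d * P i (e * s d) ∞ (x : OnePoint ℚ) := by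
    intro i e a b c d hdet hc hc0 x hx
    have h1 := (hsym i).equiv e a b c d hdet hc ∞ (x : OnePoint ℚ)
    have h2 : Pool.Agent.MuSym.mob a b c d ∞ = (((a : ℚ) / c : ℚ) : OnePoint ℚ) := by
      simp [Pool.Agent.MuSym.mob, hc0]
    have h3 : Pool.Agent.MuSym.mob a b c d (x : OnePoint ℚ) =
        (((a * x + b) / (c * x + d) : ℚ) : OnePoint ℚ) := by
      simp [Pool.Agent.MuSym.mob, hx]
    rw [h2, h3] at h1
    rw [← h1, (hsym i).add]
  have hper : ∀ (i : I) (e : G) (x : ℚ),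
      P i e ∞ ((x + 1 : ℚ) : OnePoint ℚ) = P i e ∞ (x : OnePoint ℚ) := by
    intro i e x
    have h1 := (hsym i).equiv e 1 1 0 1 (by norm_num) (by simp) ∞ (x : OnePoint ℚ)
    have h2 : Pool.Agent.MuSym.mob 1 1 0 1 ∞ = ∞ := by
      simp [Pool.Agent.MuSym.mob]
    have h3 : Pool.Agent.MuSym.mob 1 1 0 1 (x : OnePoint ℚ) = ((x + 1 : ℚ) : OnePoint ℚ) := by
      simp [Pool.Agent.MuSym.mob]
    rw [h2, h3, hnu2, one_mul, hs1, mul_one] at h1
    exact h1
  have hinf : ∀ (i : I) (e : G), P i e ∞ ∞ = 0 := by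
    intro i e
    have h1 := (hsym i).add e ∞ ∞ ∞
    simpa using h1
  let W : I → ℚ → VM V G := fun i x e => (small V).mkQ (P i e ∞ (x : OnePoint ℚ))
  have hsmul : ∀ (r : V) (x : ℂ), r • (small V).mkQ x = (small V).mkQ ((r : ℂ) * x) := by
    intro r x
    rw [← _root_.map_smul]
    rfl
  let chi : I → ℤ → MonoidAlgebra V G := fun i d =>
    MonoidAlgebra.single (s d) ⟨nu i d, (V.valuation_le_one_iff _).1 (hnu1 i d)⟩
  obtain ⟨v, N0, hN0, hNeq⟩ : ∃ v N0 : ℕ, ¬ l ∣ N0 ∧ N = l ^ v * N0 :=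
    Nat.exists_eq_pow_mul_and_not_dvd hN l hl.ne_one
  have hN00 : N0 ≠ 0 := by rintro rfl; exact hN0 (dvd_zero _)
  have hN0c : IsCoprime (N0 : ℤ) (l : ℤ) := by
    rw [Nat.isCoprime_iff_coprime]
    exact ((Nat.Prime.coprime_iff_not_dvd hl).2 hN0).symm
  have hQM : ∀ i : I, QM (l ^ v * N0) (chi i) (W i) := by
    intro i
    refine ⟨?_, ?_, ?_, ?_⟩
    · intro x
      funext e
      change (small V).mkQ _ = (small V).mkQ _
      rw [hper]
    · have h1 : (⟨nu i 1, (V.valuation_le_one_iff _).1 (hnu1 i 1)⟩ : V) = 1 := Subtype.ext (hnu2 i)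
      show MonoidAlgebra.single (s 1) (⟨nu i 1, _⟩ : V) = 1
      rw [h1, hs1]
      rfl
    · intro d d' hd
      have hd' : (N : ℤ) ∣ d - d' := by rw [hNeq]; exact hd
      have h1 : (⟨nu i d, (V.valuation_le_one_iff _).1 (hnu1 i d)⟩ : V) =
        ⟨nu i d', (V.valuation_le_one_iff _).1 (hnu1 i d')⟩ := Subtype.ext (hnu3 i d d' hd')
      show MonoidAlgebra.single (s d) (⟨nu i d, _⟩ : V) = MonoidAlgebra.single (s d') (⟨nu i d', _⟩ : V)
      rw [h1, hs2 d d' hd']
    · intro a b c d hdet hc hc0 x hx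
      funext e
      have h1 : (W i ((a : ℚ) / c) + chi i d • W i x) e = W i ((a : ℚ) / c) e + (chi i d • W i x) e := rfl
      rw [h1, single_smul]
      change (small V).mkQ _ = (small V).mkQ _ + (_ : V) • (small V).mkQ _
      rw [hsmul, ← map_add, hsymE i e a b c d hdet (by rw [hNeq]; exact hc) hc0 x hx]
  have hdep : ∀ (i : I) (x : ℚ), ∑ k ∈ range l, W i (x + (k : ℚ) / l) = 0 := by
    intro i x
    funext e
    rw [sum_apply']
    change ∑ k ∈ range l, (small V).mkQ _ = 0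
    rw [← map_sum, hPd, map_zero]
  obtain ⟨t, ht1, ht⟩ := hFUL l m N0 hl hmpos hN00 hN0c
  -- the relations
  have hStar : ∀ n0, ∃ n, n0 ≤ n ∧ ∃ (i : I) (u : Fin (l ^ m)),
      (IsCoprime ((u : ℕ) : ℤ) (l : ℤ) ∧ StarAt l m z (W i) n ((u : ℕ) : ℤ)) := by
    intro n0
    obtain ⟨n, hn, i, ψ, hψ1, hψ2, hψ3⟩ := hcon (n0 + 2 * m + h + 1)
    refine ⟨n, by omega, i, ?_⟩
    obtain ⟨r, hr⟩ : ∃ r, n = m + r + h := ⟨n - m - h, by omega⟩
    have hr1 : 1 ≤ r := by omega
    have hrm : m ≤ r + h := by omega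
    revert ψ
    rw [hr]
    intro ψ hψ1 hψ2 hψ3
    obtain ⟨u, hu1, hu2, hu3, hu4⟩ := hVST V l g h m r q hG hmpos hm22 hr1 hrm hm1 hm2 (by omega)
      hvl hv2 K (by
        intro ξ hξ x hx
        have hnp : ¬ p ∣ l ^ (m + r) := by
          intro hd
          have := (Nat.prime_dvd_prime_iff_eq hp hl).1 (hp.dvd_of_dvd_pow hd)
          omega
        exact hfr (l ^ (m + r)) (pow_ne_zero _ hl.ne_zero) hnp ξ hξ x hx)
      ψ hψ1 hψ2
    obtain ⟨w, rfl⟩ := Int.eq_ofNat_of_zero_le hu2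
    have hw : w < l ^ m := by exact_mod_cast hu3
    refine ⟨⟨w, hw⟩, hu1, ?_⟩
    intro c e hce
    funext e'
    have h1 := hu4 (fun x => P i e' ∞ (x : OnePoint ℚ)) (hper i e') (hPe i e') (hPK i e') (hψ3 e') c e hce
    show (∑ j ∈ range (l ^ m), z (e * j) • W i _) e' = 0
    rw [sum_apply']
    simp only [hzdef, alg_smul]
    change ∑ j ∈ range (l ^ m), z0 (e * j) • (small V).mkQ _ = 0
    simp only [hsmul]
    rw [← map_sum, ← LinearMap.mem_ker, Submodule.ker_mkQ, mem_small]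
    simp only [hzexp]
    exact h1
  -- one symbol, one label and one residue class
  obtain ⟨i, u, hu, hiu⟩ : ∃ (i : I) (u : ℤ), IsCoprime u (l : ℤ) ∧ ∀ n0, ∃ n o, n0 ≤ n ∧ 1 ≤ o ∧
      t ∣ o ∧ StarAt l m z (W i) n u ∧ StarAt l m z (W i) (n + o) u := by
    by_contra hno
    push Not at hno
    have h1 : ∀ x : I × Fin (l ^ m) × Fin t, ∀ᶠ n in Filter.atTop,
        ¬ ((IsCoprime ((x.2.1 : ℕ) : ℤ) (l : ℤ) ∧
          StarAt l m z (W x.1) n ((x.2.1 : ℕ) : ℤ)) ∧ n % t = x.2.2) := by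
      intro x
      by_cases hx : IsCoprime ((x.2.1 : ℕ) : ℤ) (l : ℤ)
      · obtain ⟨n0, hn0⟩ := hno x.1 _ hx
        by_contra hnev
        rw [Filter.not_eventually] at hnev
        obtain ⟨n, hn, hn'⟩ := Filter.frequently_atTop.1 hnev n0
        obtain ⟨n2, hn2, hn2'⟩ := Filter.frequently_atTop.1 hnev (n + 1)
        rw [not_not] at hn' hn2'
        obtain ⟨o, ho⟩ : ∃ o, n2 = n + o := ⟨n2 - n, by omega⟩
        refine hn0 n o hn (by omega) ?_ hn'.1.2 (by rw [← ho]; exact hn2'.1.2)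
        have h3 : n + 0 ≡ n + o [MOD t] := by
          show (n + 0) % t = (n + o) % t
          rw [add_zero, ← ho, hn'.2, hn2'.2]
        exact (Nat.modEq_zero_iff_dvd).1 (Nat.ModEq.add_left_cancel' n h3).symm
      · exact Filter.Eventually.of_forall fun n hn => hx hn.1.1
    have h2 := Filter.eventually_all.2 h1
    obtain ⟨n0, hn0⟩ := Filter.eventually_atTop.1 h2
    obtain ⟨n, hn, i, u, hu⟩ := hStar n0
    exact hn0 n hn ⟨i, u, ⟨n % t, Nat.mod_lt _ (by omega)⟩⟩ ⟨hu, rfl⟩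
  -- all levels are fully bad
  have hfull : ∀ E, v + 2 * m ≤ E → Full l m z (W i) E := by
    intro E hE
    obtain ⟨n, o, hn, ho1, hto, hs, hso⟩ := hiu (E + 5 * m + 2 * t + 2)
    refine descent (Full l m z (W i)) v m t n hmpos (by omega) ?_ ?_ E hE (by omega)
    · intro E' hE' h1 h2
      obtain ⟨d, hd⟩ : ∃ d, n = E' + d := ⟨n - E', by omega⟩
      rw [hd] at hs hso
      exact ht (MonoidAlgebra V G) (VM V G) z hz v (chi i) (W i) (hQM i) u hu E' d o hE' (by omega) (by omega)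
        ho1 hto hs hso
    · intro E' hE' h1 h2
      exact ht (MonoidAlgebra V G) (VM V G) z hz v (chi i) (W i) (hQM i) u hu E' m t hE' le_rfl (by omega)
        ht1 dvd_rfl (h1.star hmpos u hu) (h2.star hmpos u hu)
  obtain ⟨E, hE⟩ : ∃ E, E = v + 2 * m := ⟨_, rfl⟩
  have hfin := hMOD (MonoidAlgebra V G) (VM V G) l m hl hmpos hlu z hz N0 v hN00 hN0c (chi i) (W i) (hQM i)
    (hdep i) E m 1 1 hE.ge le_rfl (by omega) isCoprime_one_left isCoprime_one_left
    ((hfull E hE.ge).star hmpos 1 isCoprime_one_left)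
    ((hfull (E + m) (by omega)).star hmpos 1 isCoprime_one_left) (fun t' ht' =>
      ⟨t', ht', dvd_rfl, (hfull (E + m + t') (by omega)).star hmpos 1 isCoprime_one_left⟩)
  obtain ⟨a1, b1, c1, d1, e1, hdet, hc1, hd1, hval⟩ := hND i (l ^ (E + m) * (l ^ v * N0))
    (by
      have := pow_ne_zero (E + m) hl.ne_zero
      have := pow_ne_zero v hl.ne_zero
      positivity) (by rw [hNeq]; exact Dvd.intro_left _ rfl)
  rcases eq_or_ne c1 0 with h0 | h0
  · have h2 : Pool.Agent.MuSym.mob a1 b1 c1 d1 ∞ = ∞ := by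
      simp [Pool.Agent.MuSym.mob, h0]
    rw [h2, hinf, map_zero] at hval
    simp at hval
  · have h2 : Pool.Agent.MuSym.mob a1 b1 c1 d1 ∞ = (((a1 : ℚ) / c1 : ℚ) : OnePoint ℚ) := by
      simp [Pool.Agent.MuSym.mob, h0]
    rw [h2] at hval
    have h3 := hfin a1 b1 c1 d1 hdet hc1 hd1 h0
    have h4 := congrFun h3 e1
    change (small V).mkQ _ = 0 at h4
    rw [← LinearMap.mem_ker, Submodule.ker_mkQ, mem_small] at h4
    exact absurd h4 (not_lt.2 hval)



theorem a_TWV : S_TWV :=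
  have hE : S_EQV := t_EQV t_TWPb
  have hK : S_KEY := t_KEY t_TWPb (t_EDG hE) t_CRT t_CST
  have hC : S_CLO := t_CLO t_TWPb hE hK
  have hM : S_MOD := t_MOD t_TWPb hC (t_SUM t_TWPb)
  m_TWV a_FUL4 hM t_FRB (t_VST t_GPW (t_TRS t_TRI)) t_ZCH t_VNF

end Pool.Agent.TWV
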