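import Pool.Agent.TWR.TW4

/-!
# TWV: rigidity in the direction of a prime `l = 2, 3` for VECTORS of symbols (problem MP_b78433_nt)

Theorem T (helper60, helper59), block [TW]. A vector symbol is a family `P e`, `e ∈ G`, `G` a finite
commutative group, such that a matrix of `Γ₀(N)` with lower right entry `d` permutes the components by
`e ↦ e * s d` (application: `G = (ZMod M)ˣ`, `s d = d ^ (-2)`, `P e x y = Sum_b κ (e b) Q (x + b/M, y + b/M)`).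
The final statement is `S_TWV`: for all large `n` and every even character `ψ` of conductor `l^n` SOME
component of the twisted sum is not in the maximal ideal, if for every `N'` some component of some
`P i e ∞ (h ∞)`, `h ∈ Γ₁(N')`, is not in the maximal ideal.
-/

set_option autoImplicit false

namespace Pool.Agent.TWV

open Finset OnePoint Pool.Agent.TWR

/-- a vector of weight two symbols, permuted by the matrices of `Γ₀(N)` through `s : ℤ → G` -/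
structure IsVSym {G : Type} [CommGroup G] (N : ℕ) (nu : ℤ → ℂ) (s : ℤ → G)
    (P : G → OnePoint ℚ → OnePoint ℚ → ℂ) : Prop where
  add : ∀ (e : G) (x y z : OnePoint ℚ), P e x y + P e y z = P e x z
  equiv : ∀ (e : G) (a b c d : ℤ), a * d - b * c = 1 → (N : ℤ) ∣ c → ∀ x y : OnePoint ℚ,
    P e (Pool.Agent.MuSym.mob a b c d x) (Pool.Agent.MuSym.mob a b c d y) = nu d * P (e * s d) x y

/-- VNF: `S_NFV` for vectors, the values lie in a number field. -/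
def S_VNF : Prop := ∀ (G : Type) [CommGroup G] [Finite G] (N : ℕ) (_ : N ≠ 0)
  (s : ℤ → G) (nu : ℤ → ℂ)
  (_ : ∀ d d' : ℤ, (N : ℤ) ∣ d - d' → nu d = nu d') (_ : ∀ d, IsAlgebraic ℚ (nu d))
  (_ : ∀ d d' : ℤ, (N : ℤ) ∣ d - d' → s d = s d')
  (P : G → OnePoint ℚ → OnePoint ℚ → ℂ) (_ : IsVSym N nu s P)
  (_ : ∀ (e : G) (x : ℚ), IsAlgebraic ℚ (P e ∞ (x : OnePoint ℚ))),
  ∃ K : IntermediateField ℚ ℂ, FiniteDimensional ℚ K ∧ ∀ (e : G) (x : ℚ), P e ∞ (x : OnePoint ℚ) ∈ K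

/-- VST: `S_STA` with the label `u` chosen before the function `P`. -/
def S_VST : Prop := ∀ (V : ValuationSubring ℂ) (l g h m r q : ℕ) (_ : Gen l g h) (_ : 1 ≤ m)
  (_ : l = 2 → 2 ≤ m) (_ : 1 ≤ r) (_ : m ≤ r + h) (_ : l ^ m ∣ q - 1)
  (_ : ¬ l ^ (m + 1) ∣ q - 1) (_ : 1 ≤ q) (_ : V.valuation (l : ℂ) = 1)
  (_ : V.valuation (2 : ℂ) = 1) (K : IntermediateField ℚ ℂ)
  (_ : ∀ (ξ : ℂ) (_ : ξ ^ (l ^ (m + r)) = 1) (x : ℕ → ℂ) (_ : ∀ i, x i ∈ K),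
    V.valuation (∑ i ∈ range (l ^ (m + r)), x i * ξ ^ i) < 1 →
    V.valuation (∑ i ∈ range (l ^ (m + r)), x i * ξ ^ (q * i)) < 1)
  (ψ : DirichletCharacter ℂ (l ^ (m + r + h))) (_ : ψ (-1) = 1)
  (_ : ψ (1 + (l : ZMod (l ^ (m + r + h))) ^ (m + r + h - 1)) ≠ 1),
  ∃ u : ℤ, IsCoprime u (l : ℤ) ∧ 0 ≤ u ∧ u < l ^ m ∧
    ∀ (P : ℚ → ℂ) (_ : ∀ x, P (x + 1) = P x) (_ : ∀ x, P (-x) = P x) (_ : ∀ x, P x ∈ K)
      (_ : V.valuation (∑ b ∈ range (l ^ (m + r + h)),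
        ψ b * P ((b : ℚ) / (l : ℚ) ^ (m + r + h))) < 1) (c e : ℤ), ((l ^ m : ℕ) : ℤ) ∣ e * c - u →
    V.valuation (∑ j ∈ range (l ^ m), Complex.exp (2 * Real.pi * Complex.I / (l ^ m : ℕ)) ^
      (e * (j : ℤ)) * P ((c : ℚ) / (l : ℚ) ^ (m + r + h) + (j : ℚ) / (l ^ m : ℕ))) < 1

/-- TWV: the rigidity theorem for all large levels, for vectors of symbols. -/
def S_TWV : Prop := ∀ (l g h : ℕ) (_ : Gen l g h) (V : ValuationSubring ℂ) (p : ℕ) (_ : p.Prime)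
  (_ : 5 ≤ p) (_ : V.valuation (p : ℂ) < 1) (I : Type) [Finite I]
  (G : Type) [CommGroup G] [Finite G] (N : ℕ) (_ : N ≠ 0) (s : ℤ → G) (_ : s 1 = 1)
  (_ : ∀ d d' : ℤ, (N : ℤ) ∣ d - d' → s d = s d') (nu : I → ℤ → ℂ)
  (_ : ∀ i d, V.valuation (nu i d) ≤ 1) (_ : ∀ i, nu i 1 = 1)
  (_ : ∀ i (d d' : ℤ), (N : ℤ) ∣ d - d' → nu i d = nu i d') (_ : ∀ i d, IsAlgebraic ℚ (nu i d))
  (P : I → G → OnePoint ℚ → OnePoint ℚ → ℂ) (_ : ∀ i, IsVSym N (nu i) s (P i))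
  (_ : ∀ i (e : G) (x : ℚ), IsAlgebraic ℚ (P i e ∞ (x : OnePoint ℚ)))
  (_ : ∀ i (e : G) (x : ℚ), P i e ∞ ((-x : ℚ) : OnePoint ℚ) = P i e ∞ (x : OnePoint ℚ))
  (_ : ∀ i (e : G) (x : ℚ), ∑ k ∈ range l, P i e ∞ ((x + (k : ℚ) / l : ℚ) : OnePoint ℚ) = 0)
  (_ : ∀ i (N' : ℕ), N' ≠ 0 → N ∣ N' → ∃ (a b c d : ℤ) (e : G), a * d - b * c = 1 ∧
    (N' : ℤ) ∣ c ∧ (N' : ℤ) ∣ d - 1 ∧
    1 ≤ V.valuation (P i e ∞ (Pool.Agent.MuSym.mob a b c d ∞))),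
  ∃ n0 : ℕ, ∀ n, n0 ≤ n → ∀ i,
    ∀ ψ : DirichletCharacter ℂ (l ^ n), ψ (-1) = 1 →
      ψ (1 + (l : ZMod (l ^ n)) ^ (n - 1)) ≠ 1 →
      ∃ e : G, 1 ≤ V.valuation (∑ b ∈ range (l ^ n),
        ψ b * P i e ∞ (((b : ℚ) / (l : ℚ) ^ n : ℚ) : OnePoint ℚ))




end Pool.Agent.TWV
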