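import Pool.Agent.TWV.St

/-!
# TWV, module VST: the label is chosen before the symbol (adapted from `TWR/STA.lean`)
-/

set_option autoImplicit false

namespace Pool.Agent.TWV

open Finset Pool.Agent.TWR Pool.Agent.TWR.STAAux

theorem t_VST (hGPW : S_GPW) (hTRS : S_TRS) : S_VST := by
  intro V l g h m r q hG hm hl2 hr hmr hq1 hq2 hq0 vl v2 K hK ψ ψneg ψne
  obtain ⟨g1, g2, g3, g4, g5⟩ := hGPW l g h hG
  have lp : l.Prime := by rcases hG with ⟨rfl, _, _⟩ | ⟨rfl, _, _⟩ <;> norm_num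
  have hh : 1 ≤ h := by rcases hG with ⟨_, _, rfl⟩ | ⟨_, _, rfl⟩ <;> norm_num
  have hl0 : l ≠ 0 := lp.ne_zero
  have hlq : (l : ℚ) ≠ 0 := by exact_mod_cast hl0
  have hlnq : (l : ℚ) ^ (m + r + h) ≠ 0 := pow_ne_zero _ hlq
  have hlmq : (l : ℚ) ^ m ≠ 0 := pow_ne_zero _ hlq
  have : NeZero (l ^ (m + r + h)) := ⟨pow_ne_zero _ hl0⟩
  set ξ : ℂ := ψ (g : ZMod (l ^ (m + r + h))) with hξ
  have ξp : IsPrimitiveRoot ξ (l ^ (m + r)) := by
    have e1 : ξ ^ l ^ (m + r) = 1 := by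
      rw [hξ, ← map_pow, g2 (m + r), map_one]
    have e2 : ¬ ξ ^ l ^ (m + r - 1) = 1 := by
      obtain ⟨w, hw, hw'⟩ := g1 (m + r - 1)
      have h3 := char_ne l (m + r + h) lp (by omega) ψ ψne w hw
      intro h4
      apply h3
      rw [hξ, ← map_pow] at h4
      have h5 := congrArg (Int.cast : ℤ → ZMod (l ^ (m + r + h))) hw'
      push_cast at h5
      rw [show m + r - 1 + h = m + r + h - 1 by omega] at h5
      rw [← h5]
      exact h4
    have : Fact l.Prime := ⟨lp⟩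
    have e3 := orderOf_eq_prime_pow (p := l) (n := m + r - 1) e2 (by
      rw [show m + r - 1 + 1 = m + r by omega]; exact e1)
    rw [show m + r - 1 + 1 = m + r by omega] at e3
    rw [← e3]
    exact IsPrimitiveRoot.orderOf ξ
  obtain ⟨w, hw, hw'⟩ := g1 r
  have hg5 := g5 m r w hw' hmr
  -- the root of unity
  have ξr : IsPrimitiveRoot (ξ ^ (l ^ r)) (l ^ m) :=
    ξp.pow (pow_pos lp.pos _) (by rw [← pow_add, add_comm])
  obtain ⟨k0, hk0lt, hk0c, hk0⟩ := (Complex.isPrimitiveRoot_iff _ _ (pow_ne_zero m hl0)).1 ξr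
  set ζ : ℂ := Complex.exp (2 * Real.pi * Complex.I / (l ^ m : ℕ)) with hζ
  have ζ0 : ζ ≠ 0 := Complex.exp_ne_zero _
  have ζk : ζ ^ k0 = ξ ^ (l ^ r) := by
    rw [← hk0, hζ, ← Complex.exp_nat_mul]
    congr 1
    push_cast
    ring
  have ζm : ζ ^ (l ^ m) = 1 := by
    have := (Complex.isPrimitiveRoot_exp (l ^ m) (pow_ne_zero m hl0)).pow_eq_one
    rw [hζ]
    exact this
  have ζz : ∀ a b : ℤ, ((l ^ m : ℕ) : ℤ) ∣ a - b → ζ ^ a = ζ ^ b := by
    intro a b ⟨k, hk⟩
    have : a = b + ((l ^ m : ℕ) : ℤ) * k := by linear_combination hk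
    rw [this, zpow_add₀ ζ0, zpow_mul, zpow_natCast, ζm, one_zpow, mul_one]
  -- the label u
  have hwm : IsCoprime w ((l ^ m : ℕ) : ℤ) := by
    push_cast
    exact hw.pow_right
  obtain ⟨a, b, hab⟩ := hwm
  have hlm' : ((l ^ m : ℕ) : ℤ) ≠ 0 := by exact_mod_cast pow_ne_zero m hl0
  have hlmpos : (0 : ℤ) < ((l ^ m : ℕ) : ℤ) := by exact_mod_cast pow_pos lp.pos m
  have hdiv : (l : ℤ) ∣ ((l ^ m : ℕ) : ℤ) := by
    push_cast
    exact dvd_pow_self _ (by omega)
  have hk0l : IsCoprime (k0 : ℤ) (l : ℤ) := by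
    have : IsCoprime (k0 : ℤ) ((l ^ m : ℕ) : ℤ) := Nat.isCoprime_iff_coprime.2 hk0c
    exact this.of_isCoprime_of_dvd_right hdiv
  obtain ⟨u, hu0, hu1, huw⟩ : ∃ u : ℤ, 0 ≤ u ∧ u < ((l ^ m : ℕ) : ℤ) ∧
      ((l ^ m : ℕ) : ℤ) ∣ u * w - k0 := by
    refine ⟨(a * k0) % ((l ^ m : ℕ) : ℤ), Int.emod_nonneg _ hlm', Int.emod_lt_of_pos _ hlmpos, ?_⟩
    refine ⟨- b * k0 - (a * k0 / ((l ^ m : ℕ) : ℤ)) * w, ?_⟩
    have := Int.emod_add_mul_ediv (a * k0) ((l ^ m : ℕ) : ℤ)
    linear_combination w * this + k0 * hab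
  have hul : IsCoprime u (l : ℤ) := by
    -- a common divisor: u w = k0 + l * _
    obtain ⟨s, hs⟩ := hdiv
    obtain ⟨k, hk⟩ := huw
    have h1 : IsCoprime (u * w) (l : ℤ) := by
      have : u * w = k0 + (l : ℤ) * (s * k) := by rw [hs] at hk; linear_combination hk
      rw [this]
      exact (IsCoprime.add_mul_left_left hk0l _)
    exact h1.of_mul_left_left
  refine ⟨u, hul, hu0, by push_cast at hu1; exact_mod_cast hu1, ?_⟩
  intro P P1 Pneg PK hsum
  have Pz : ∀ (x : ℚ) (k : ℤ), P (x + k) = P x := by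
    intro x k
    have := (show Function.Periodic P (1 : ℚ) from P1).int_mul k x
    simpa using this
  have Pc : ∀ (a b : ℤ), ((l ^ (m + r + h) : ℕ) : ℤ) ∣ a - b → ∀ y : ℚ,
      P ((a : ℚ) / (l : ℚ) ^ (m + r + h) + y) = P ((b : ℚ) / (l : ℚ) ^ (m + r + h) + y) := by
    intro a b ⟨k, hk⟩ y
    rw [← Pz ((b : ℚ) / (l : ℚ) ^ (m + r + h) + y) k]
    congr 1
    have hk' : (a : ℚ) - b = (l : ℚ) ^ (m + r + h) * k := by
      have := congrArg (Int.cast : ℤ → ℚ) hk
      push_cast at this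
      exact this
    field_simp
    linear_combination hk'
  have Pc0 : ∀ (a b : ℤ), ((l ^ (m + r + h) : ℕ) : ℤ) ∣ a - b →
      P ((a : ℚ) / (l : ℚ) ^ (m + r + h)) = P ((b : ℚ) / (l : ℚ) ^ (m + r + h)) := by
    intro a b hab
    simpa using Pc a b hab 0
  set x : ℕ → ℂ := fun t => P (((g : ℚ) ^ t) / (l : ℚ) ^ (m + r + h)) with hx
  have xper : ∀ i, x (i + l ^ (m + r)) = x i := by
    intro i
    simp only [hx]
    have h1 := Pc0 ((g : ℤ) ^ (i + l ^ (m + r))) ((g : ℤ) ^ i) (by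
      rw [← ZMod.intCast_zmod_eq_zero_iff_dvd]
      push_cast
      rw [pow_add (g : ZMod (l ^ (m + r + h))) i (l ^ (m + r)), g2 (m + r)]
      ring)
    push_cast at h1
    exact h1
  have hsum2 : V.valuation (∑ t ∈ range (l ^ (m + r)), x t * ξ ^ t) < 1 := by
    have h1 := g3 (m + r) (fun c => ψ c * P ((c.val : ℚ) / (l : ℚ) ^ (m + r + h))) (by
      intro c hc
      rw [MulChar.map_nonunit ψ hc, zero_mul])
    have hF : ∀ a : ℤ, (fun c : ZMod (l ^ (m + r + h)) => ψ c * P ((c.val : ℚ) /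
        (l : ℚ) ^ (m + r + h))) (a : ZMod (l ^ (m + r + h))) =
        ψ (a : ZMod (l ^ (m + r + h))) * P ((a : ℚ) / (l : ℚ) ^ (m + r + h)) := by
      intro a
      have h2 := Pc0 (((a : ZMod (l ^ (m + r + h))).val : ℕ) : ℤ) a (by
        rw [← ZMod.intCast_zmod_eq_zero_iff_dvd]
        push_cast
        simp)
      rw [Int.cast_natCast] at h2
      show ψ (a : ZMod (l ^ (m + r + h))) * P _ = _
      rw [h2]
    have h3 : ∑ c ∈ range (l ^ (m + r + h)), (fun c : ZMod (l ^ (m + r + h)) => ψ c *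
        P ((c.val : ℚ) / (l : ℚ) ^ (m + r + h))) (c : ZMod (l ^ (m + r + h))) =
        ∑ b ∈ range (l ^ (m + r + h)), ψ b * P ((b : ℚ) / (l : ℚ) ^ (m + r + h)) := by
      apply Finset.sum_congr rfl
      intro b _
      have := hF (b : ℤ)
      rw [Int.cast_natCast] at this
      rw [this]
      push_cast
      rfl
    have h4 : ∑ t ∈ range (l ^ (m + r)), ((fun c : ZMod (l ^ (m + r + h)) => ψ c *
        P ((c.val : ℚ) / (l : ℚ) ^ (m + r + h))) ((g : ZMod (l ^ (m + r + h))) ^ t) +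
        (fun c : ZMod (l ^ (m + r + h)) => ψ c *
        P ((c.val : ℚ) / (l : ℚ) ^ (m + r + h))) (-(g : ZMod (l ^ (m + r + h))) ^ t)) =
        2 * ∑ t ∈ range (l ^ (m + r)), x t * ξ ^ t := by
      rw [Finset.mul_sum]
      apply Finset.sum_congr rfl
      intro t _
      have e1 := hF ((g : ℤ) ^ t)
      have e2 := hF (-(g : ℤ) ^ t)
      have c1 : (((g : ℤ) ^ t : ℤ) : ZMod (l ^ (m + r + h))) = (g : ZMod (l ^ (m + r + h))) ^ t := by
        push_cast; rfl
      have c2 : ((-(g : ℤ) ^ t : ℤ) : ZMod (l ^ (m + r + h))) = -(g : ZMod (l ^ (m + r + h))) ^ t := by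
        push_cast; rfl
      rw [c1] at e1
      rw [c2] at e2
      rw [e1, e2]
      have e3 : ψ (-(g : ZMod (l ^ (m + r + h))) ^ t) = ξ ^ t := by
        rw [show -(g : ZMod (l ^ (m + r + h))) ^ t = (-1) * (g : ZMod (l ^ (m + r + h))) ^ t by ring,
          map_mul, ψneg, one_mul, map_pow]
      have e4 : P (((-(g : ℤ) ^ t : ℤ) : ℚ) / (l : ℚ) ^ (m + r + h)) = x t := by
        simp only [hx]
        rw [← Pneg]
        congr 1
        push_cast
        ring
      have e5 : P ((((g : ℤ) ^ t : ℤ) : ℚ) / (l : ℚ) ^ (m + r + h)) = x t := by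
        simp only [hx]
        congr 1
        push_cast
        ring
      rw [e3, e4, e5, map_pow]
      ring
    rw [← h3, h1, h4, map_mul, v2, one_mul] at hsum
    exact hsum
  have hT := hTRS V l m r q lp hm hl2 hq1 hq2 hq0 vl K hK ξ ξp x (fun i => PK _) xper hsum2
  -- the main computation
  have main : ∀ (t0 : ℕ) (c e : ℤ), ((l ^ (m + r + h) : ℕ) : ℤ) ∣ c - (g : ℤ) ^ t0 →
      ((l ^ m : ℕ) : ℤ) ∣ e * c - u →
      V.valuation (∑ j ∈ range (l ^ m), ζ ^ (e * (j : ℤ)) *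
        P ((c : ℚ) / (l : ℚ) ^ (m + r + h) + (j : ℚ) / (l ^ m : ℕ))) < 1 := by
    intro t0 c e hc hec
    have h1 := hT t0
    set F : ℤ → ℂ := fun j => ζ ^ (e * j) * P ((c : ℚ) / (l : ℚ) ^ (m + r + h) +
      (j : ℚ) / (l ^ m : ℕ)) with hF
    have hFper : ∀ j : ℤ, F (j + (l ^ m : ℕ)) = F j := by
      intro j
      simp only [hF]
      congr 1
      · apply ζz
        exact ⟨e, by ring⟩
      · rw [← Pz ((c : ℚ) / (l : ℚ) ^ (m + r + h) + (j : ℚ) / (l ^ m : ℕ)) 1]
        congr 1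
        push_cast
        rw [add_div (j : ℚ), div_self hlmq]
        ring
    have hcl : IsCoprime c (l : ℤ) := by
      obtain ⟨s, hs⟩ := hdiv
      obtain ⟨k, hk⟩ := hec
      have h1 : IsCoprime (e * c) (l : ℤ) := by
        have : e * c = u + (l : ℤ) * (s * k) := by rw [hs] at hk; linear_combination hk
        rw [this]
        exact (IsCoprime.add_mul_left_left hul _)
      exact h1.of_mul_left_right
    have hcw : IsCoprime (c * w) ((l ^ m : ℕ) : ℤ) := by
      push_cast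
      exact (hcl.mul_left hw).pow_right
    have h2 := sum_perm (l ^ m) (pow_ne_zero m hl0) F hFper (c * w) hcw
    have h3 : ∑ i ∈ range (l ^ m), ξ ^ (l ^ r * i) * x (t0 + l ^ r * i) =
        ∑ j ∈ range (l ^ m), F (c * w * j) := by
      apply Finset.sum_congr rfl
      intro i _
      simp only [hF]
      congr 1
      · rw [pow_mul, ← ζk, ← pow_mul, ← zpow_natCast ζ (k0 * i)]
        apply ζz
        obtain ⟨k1, hk1⟩ := hec
        obtain ⟨k2, hk2⟩ := huw
        refine ⟨- (k1 * w * i) - k2 * i, ?_⟩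
        push_cast at hk1 hk2 ⊢
        linear_combination (- w * i) * hk1 - (i : ℤ) * hk2
      · simp only [hx]
        have h4 := Pc0 ((g : ℤ) ^ (t0 + l ^ r * i)) (c * (1 + (l : ℤ) ^ (r + h) * w * i)) (by
          obtain ⟨k1, hk1⟩ := hc
          obtain ⟨k2, hk2⟩ := hg5 i
          refine ⟨(g : ℤ) ^ t0 * k2 - k1 * (1 + (l : ℤ) ^ (r + h) * w * i), ?_⟩
          rw [pow_add]
          linear_combination (g : ℤ) ^ t0 * hk2 - (1 + (l : ℤ) ^ (r + h) * w * i) * hk1)
        push_cast at h4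
        rw [h4]
        congr 1
        push_cast
        have h5 : (l : ℚ) ^ (m + r + h) = (l : ℚ) ^ m * (l : ℚ) ^ (r + h) := by
          rw [← pow_add, add_assoc]
        have h6 : (l : ℚ) ^ (r + h) ≠ 0 := pow_ne_zero _ hlq
        rw [h5]
        field_simp
    rw [h3, h2] at h1
    exact h1
  intro c e hec
  have hcl : IsCoprime c (l : ℤ) := by
    obtain ⟨s, hs⟩ := hdiv
    obtain ⟨k, hk⟩ := hec
    have h1 : IsCoprime (e * c) (l : ℤ) := by
      have : e * c = u + (l : ℤ) * (s * k) := by rw [hs] at hk; linear_combination hk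
      rw [this]
      exact (IsCoprime.add_mul_left_left hul _)
    exact h1.of_mul_left_right
  obtain ⟨t, ht⟩ := g4 (m + r) c hcl
  rcases ht with ht | ht
  · apply main t c e _ hec
    rw [← ZMod.intCast_zmod_eq_zero_iff_dvd]
    push_cast
    rw [ht]
    ring
  · have h1 := main t (-c) (-e) (by
      rw [← ZMod.intCast_zmod_eq_zero_iff_dvd]
      push_cast
      rw [ht]
      ring) (by
      have : -e * -c - u = e * c - u := by ring
      rw [this]
      exact hec)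
    set F : ℤ → ℂ := fun j => ζ ^ (-e * j) * P (((-c : ℤ) : ℚ) / (l : ℚ) ^ (m + r + h) +
      (j : ℚ) / (l ^ m : ℕ)) with hF
    have hFper : ∀ j : ℤ, F (j + (l ^ m : ℕ)) = F j := by
      intro j
      simp only [hF]
      congr 1
      · apply ζz
        exact ⟨-e, by ring⟩
      · rw [← Pz (((-c : ℤ) : ℚ) / (l : ℚ) ^ (m + r + h) + (j : ℚ) / (l ^ m : ℕ)) 1]
        congr 1
        push_cast
        rw [add_div (j : ℚ), div_self hlmq]
        ring
    have h2 := sum_perm (l ^ m) (pow_ne_zero m hl0) F hFper (-1) (isCoprime_one_left.neg_left)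
    have h3 : ∑ j ∈ range (l ^ m), ζ ^ (e * (j : ℤ)) *
        P ((c : ℚ) / (l : ℚ) ^ (m + r + h) + (j : ℚ) / (l ^ m : ℕ)) =
        ∑ j ∈ range (l ^ m), F (-1 * j) := by
      apply Finset.sum_congr rfl
      intro j _
      simp only [hF]
      congr 1
      · congr 1
        ring
      · rw [← Pneg]
        congr 1
        push_cast
        ring
    rw [h3, h2]
    exact h1

end Pool.Agent.TWV
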